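import Pool.Agent.MP_f49c72_ag.Defs
import Pool.Agent.MP_eba2ed_ag.LcmDefs

/-! Monomial ideals on a subset of the Hilbert scheme of projective three-space over a field. -/

namespace Pool.Agent.MP_f49c72_ag.Cur

open CategoryTheory Limits AlgebraicGeometry MvPolynomial Pool.Agent.MP_eba2ed_ag

/-- The saturated monomial ideals of `k[x0,x1,x2,x3]` whose subscheme is the member of the family
`fam` at a `k`-rational point of `H × Spec k` that lies in `Z`. -/
def Mon {H : Scheme.{0}}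
    (fam : ∀ R : CommRingCat.{0}, (Spec R ⟶ H) → Ideal (MvPolynomial (Fin 4) R))
    (k : Type) [Field k] (Z : Set (H ⨯ Spec (CommRingCat.of k) : Scheme.{0})) :
    Set (Ideal (MvPolynomial (Fin 4) k)) :=
  {I | IsMonomialIdeal I ∧ (∀ f, (∀ i, X i * f ∈ I) → f ∈ I) ∧
    ∃ t : Spec (CommRingCat.of k) ⟶ H ⨯ Spec (CommRingCat.of k), t ≫ prod.snd = 𝟙 _ ∧
      Set.range t ⊆ Z ∧ SameSub (fam (CommRingCat.of k) (t ≫ prod.fst)) I}

end Pool.Agent.MP_f49c72_ag.Cur
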