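import Pool.Agent.MP_f49c72_ag.Cur.Space
import Pool.Agent.MP_f49c72_ag.Cur.Defs

/-! Two conjugate components of a Hilbert scheme of curves in projective three-space. -/

namespace Pool.Agent.MP_f49c72_ag.Cur

open Pool.Agent.MP_eba2ed_ag MvPolynomial Module IsLocalRing

theorem extend_aut_cur {F k : Type} [Field F] [Field k] [Algebra F k] [IsAlgClosed k]
    (τ : F ≃+* F) : ∃ σ : k ≃+* k, ∀ x, σ (algebraMap F k x) = algebraMap F k (τ x) := by
  obtain ⟨s, hv⟩ := exists_isTranscendenceBasis F k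
  let _ := IsAlgClosed.isAlgClosure_of_transcendence_basis _ hv
  let e : Algebra.adjoin F (Set.range ((↑) : s → k)) ≃+*
      Algebra.adjoin F (Set.range ((↑) : s → k)) :=
    (hv.1.aevalEquiv.symm.toRingEquiv.trans (MvPolynomial.mapEquiv s τ)).trans
      hv.1.aevalEquiv.toRingEquiv
  refine ⟨IsAlgClosure.equivOfEquiv k k e, fun x => ?_⟩
  have h1 : algebraMap F k x =
      algebraMap (Algebra.adjoin F (Set.range ((↑) : s → k))) k (algebraMap F _ x) := rfl
  rw [h1, IsAlgClosure.equivOfEquiv_algebraMap]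
  have : e (algebraMap F _ x) = algebraMap F _ (τ x) := by
    simp only [e, RingEquiv.trans_apply, AlgEquiv.coe_ringEquiv, AlgEquiv.commutes]
    rw [MvPolynomial.algebraMap_eq, MvPolynomial.mapEquiv_apply, MvPolynomial.map_C,
      ← MvPolynomial.algebraMap_eq, AlgEquiv.commutes]
    rfl
  rw [this]; rfl

theorem root_cur (k : Type) [Field k] [IsAlgClosed k] :
    ∃ (l : ℕ) (ζ : k) (σ : k ≃+* k) (j : ℕ), l.Prime ∧ 11 ≤ l ∧
      IsPrimitiveRoot ζ l ∧ 2 ≤ j ∧ j + 2 ≤ l ∧ σ ζ = ζ ^ j := by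
  by_cases h0 : ringChar k = 0
  · have : CharP k 0 := h0 ▸ ringChar.charP k
    have : CharZero k := CharP.charP_to_charZero k
    let F := CyclotomicField 11 ℚ
    have : IsCyclotomicExtension {11} ℚ F := CyclotomicField.isCyclotomicExtension 11 ℚ
    have : Algebra.IsAlgebraic ℚ F := Algebra.IsAlgebraic.of_finite ℚ F
    let φ : F →ₐ[ℚ] k := IsAlgClosed.lift
    let _ : Algebra F k := φ.toRingHom.toAlgebra
    have hζ := IsCyclotomicExtension.zeta_spec 11 ℚ F
    have h3 := hζ.pow_of_coprime 2 (by norm_num)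
    obtain ⟨σ, hσ⟩ := extend_aut_cur (k := k) (IsCyclotomicExtension.fromZetaAut h3
      (Polynomial.cyclotomic.irreducible_rat (by norm_num))).toRingEquiv
    refine ⟨11, algebraMap F k (IsCyclotomicExtension.zeta 11 ℚ F), σ, 2, by norm_num, le_rfl,
      hζ.map_of_injective (algebraMap F k).injective, le_rfl, by norm_num, ?_⟩
    rw [hσ, ← map_pow]
    congr 1
    exact IsCyclotomicExtension.fromZetaAut_spec h3
      (Polynomial.cyclotomic.irreducible_rat (by norm_num))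
  · have hpr : (ringChar k).Prime := CharP.char_prime_of_ne_zero k h0
    have : Fact (ringChar k).Prime := ⟨hpr⟩
    obtain ⟨l, hl, hl'⟩ := Nat.exists_infinite_primes (ringChar k + 11)
    have : NeZero (l : k) := ⟨fun h => by
      have := (Nat.prime_dvd_prime_iff_eq hpr hl').1 ((ringChar.spec k l).1 h)
      omega⟩
    have : NeZero l := ⟨hl'.ne_zero⟩
    obtain ⟨ζ, hζ⟩ := HasEnoughRootsOfUnity.exists_primitiveRoot k l
    refine ⟨l, ζ, frobeniusEquiv k (ringChar k), ringChar k, hl', by omega, hζ,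
      hpr.two_le, by omega, ?_⟩
    rw [coe_frobeniusEquiv, frobenius_def]

/-- two configurations with a common generisation have the same cross-ratio up to inversion -/
theorem sep_cur {k K : Type} [Field k] [Field K] [IsAlgClosed K] {l : ℕ} [NeZero l] (hl : 4 ≤ l)
    {ζ : k} (hζ : IsPrimitiveRoot ζ l) {V0 V1 : ValuationSubring K} (ι0 : k →+* V0)
    (ι1 : k →+* V1) (hι : (algebraMap V0 K).comp ι0 = (algebraMap V1 K).comp ι1)
    {F0 F1 : Aff k (inc l)} (h0 : F0.Good) (h1 : F1.Good) {e N0 N1 : ℕ} {I0 I1 : Ideal (A K)}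
    (S0 : Setup V0 K (cfg (F0.map ((residue V0).comp ι0)) e) I0 N0)
    (S1 : Setup V1 K (cfg (F1.map ((residue V1).comp ι1)) e) I1 N1) (hI : SameSub I0 I1)
    {μ0 μ1 : k} (m0 : cr (F0.X (.inl 0)) (F0.X (.inl 1)) (F0.X (.inl 2)) (F0.X (.inl 3)) μ0)
    (m1 : cr (F1.X (.inl 0)) (F1.X (.inl 1)) (F1.X (.inl 2)) (F1.X (.inl 3)) μ1) :
    μ0 = μ1 ∨ μ0 * μ1 = 1 := by
  choose p hp hpi using S0.exists_min
  choose q hq hqi using S1.exists_min
  obtain ⟨a1, a2, a3⟩ := lift_pat (h0.map _) S0 hp hpi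
  obtain ⟨b1, -, b3⟩ := lift_pat (h1.map _) S1 hq hqi
  have hni : ∀ i, ¬ irr K ≤ p i := fun i h => by
    have := hf_add_dm (p i) 1
    rw [a2, finrank_Hn_one, hf_eq_zero_of_irr_pow_le (M := 1) (by simpa using h) le_rfl] at this
    omega
  have hπ : ∀ i, ∃ j, p i = q j := fun i => by
    have hm := min_same S0.hom S1.hom hI (hp i) (hni i)
    obtain ⟨j, hj⟩ := (S1.exists_line_or hm).resolve_right (hni i)
    exact ⟨j, by_contra fun h => S1.disjoint hm (hq j) h hj (hqi j)⟩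
  choose π hπ using hπ
  have hinj : Function.Injective π := fun i j h =>
    (S0.is_line (hp j) (hpi j)).1 i (by rw [hπ j, ← h, ← hπ i]; exact hpi i)
  obtain ⟨t, ρ, τ, r1, r2, r3, r4, r5⟩ := relabel (inc := inc l) (π := π)
    (by
      rintro (a | i | i)
      · by_cases ha : a = 2
        · exact ⟨.inr (.inr 0), by simp [inc, ha]⟩
        · exact ⟨.inr (.inl 0), ha⟩
      · exact ⟨.inl 0, by simp [inc]⟩
      · exact ⟨.inl 0, by simp [inc]⟩)
    (by
      rintro (b | i | i)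
      · by_cases hb : b = 1
        · exact ⟨.inr (.inr 0), by simp [inc, hb]⟩
        · exact ⟨.inr (.inl 0), hb⟩
      · exact ⟨.inl 0, by simp [inc]⟩
      · exact ⟨.inl 0, by simp [inc]⟩) hinj
    (fun i j => by
      by_cases h : i = j
      · subst h
        have : ∀ i, ¬ adj (inc l) i i := by rintro ((_ | _) | _ | _) <;> exact id
        exact iff_of_false (this _) (this _)
      · rw [adj_iff b1 (hinj.ne h), adj_iff a1 h]
        simp only [hπ])
  obtain ⟨s1, s2⟩ := symm_inc hl r3 r4 r5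
  obtain ⟨G, hG⟩ := aff_lnk a1 (fun i => pc_le _ _) a2
  have ne : ∀ a b : Fin 4, a ≠ b → (Sum.inl a : Pt l) ≠ .inl b := fun a b h e =>
    h (Sum.inl_injective e)
  obtain ⟨c, hc⟩ := cr_exists (G.hX.ne (ne 1 3 (by decide))) (G.hX.ne (ne 2 0 (by decide)))
  obtain ⟨n, -, rfl⟩ := (hζ.map_of_injective ((algebraMap V0 K).comp ι0).injective
    ).eq_pow_of_pow_eq_one (force G hc)
  have hcnd := cnd_of_cr hG (G.hX.ne (ne 1 2 (by decide))) (G.hX.ne (ne 2 0 (by decide))) hc
  rw [← map_pow] at hcnd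
  have c0 := (cr_map ((residue V0).comp ι0)).1
    (a3 (ne 0 2 (by decide)) (ne 1 2 (by decide)) hcnd)
  have e0 : ζ ^ n = μ0 := by
    have := cr_XY F0 m0
    unfold cr at this c0
    exact mul_right_cancel₀ (mul_ne_zero (sub_ne_zero.2 (F0.hY.ne (ne 1 3 (by decide))))
      (sub_ne_zero.2 (F0.hY.ne (ne 2 0 (by decide))))) (by linear_combination c0 - this)
  simp only [hπ, r1, r2] at hcnd
  rw [hι, e0] at hcnd
  have c1 := b3 (r3.ne (ne 0 2 (by decide))) (r3.ne (ne 1 2 (by decide))) hcnd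
  have key : ∀ Z : Pt l → k, Function.Injective Z →
      cr (Z (.inl 0)) (Z (.inl 1)) (Z (.inl 2)) (Z (.inl 3)) μ1 →
      cr (Z (ρ (.inl 0))) (Z (ρ (.inl 1))) (Z (ρ (.inl 2))) (Z (ρ (.inl 3))) μ0 →
      μ0 = μ1 ∨ μ0 * μ1 = 1 := fun Z hZ u v =>
    cr_perm (z := fun a => Z (.inl a)) (hZ.comp Sum.inl_injective) u v
      (s1.imp (fun h => ⟨by rw [h.1], by rw [h.2]⟩) fun h => ⟨by rw [h.1], by rw [h.2]⟩)
      (s2.imp (fun h => ⟨by rw [h.1], by rw [h.2]⟩) fun h => ⟨by rw [h.1], by rw [h.2]⟩)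
  cases t
  · exact key _ F1.hY (cr_XY F1 m1) ((cr_map ((residue V1).comp ι1)).1 c1)
  · exact key _ F1.hX m1 ((cr_map ((residue V1).comp ι1)).1 c1)

open CategoryTheory Limits AlgebraicGeometry

theorem val_cur {k K : Type} [Field k] [Field K] {X : Scheme.{0}} (π : X ⟶ Spec (.of k))
    (t : Spec (.of k) ⟶ X) (ht : t ≫ π = 𝟙 _) {η : X} (h : η ⤳ t (closedPoint k))
    (a : X.residueField η ⟶ .of K) :
    ∃ (V : ValuationSubring K) (v : Spec (.of V) ⟶ X) (ι : k →+* V),
      Spec.map (CommRingCat.ofHom (algebraMap V K)) ≫ v = Spec.map a ≫ X.fromSpecResidueField η ∧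
      v ≫ π = Spec.map (CommRingCat.ofHom ι) ∧
      Spec.map (CommRingCat.ofHom (residue V)) ≫ v =
        Spec.map (CommRingCat.ofHom ((residue V).comp ι)) ≫ t := by
  let f := X.presheaf.stalkSpecializes h ≫ X.residue η ≫ a
  obtain ⟨V, hV, hloc⟩ := IsLocalRing.exists_factor_valuationRing f.hom
  let f' : X.presheaf.stalk (t (closedPoint k)) ⟶ .of V :=
    CommRingCat.ofHom (f.hom.codRestrict _ hV)
  have hloc' : IsLocalHom f'.hom := hloc
  let b : CommRingCat.of k ⟶ X.presheaf.stalk (t (closedPoint k)) :=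
    Spec.preimage (X.fromSpecStalk _ ≫ π)
  let c := Scheme.stalkClosedPointTo t
  have hc : Spec.map c ≫ X.fromSpecStalk _ = t := Scheme.Spec_stalkClosedPointTo_fromSpecStalk t
  have hbc : b ≫ c = 𝟙 _ := Spec.map_injective (by
    rw [Spec.map_comp, Spec.map_preimage, ← Category.assoc, hc, ht, Spec.map_id])
  refine ⟨V, Spec.map f' ≫ X.fromSpecStalk _, (b ≫ f').hom, ?_, ?_, ?_⟩
  · rw [← Category.assoc, ← Spec.map_comp]
    have : f' ≫ CommRingCat.ofHom (algebraMap V K) = f := rfl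
    rw [this, Spec.map_comp, Category.assoc, Scheme.SpecMap_stalkSpecializes_fromSpecStalk,
      Spec.map_comp, Category.assoc, Scheme.fromSpecResidueField]
  · rw [Category.assoc, CommRingCat.ofHom_hom, Spec.map_comp, Spec.map_preimage]
  · refine Eq.trans ?_ (congrArg (_ ≫ ·) hc)
    rw [← Category.assoc, ← Category.assoc, ← Spec.map_comp, ← Spec.map_comp]
    congr 2
    ext o
    change residue V (f'.hom o) = residue V (f'.hom (b.hom (c.hom o)))
    rw [← sub_eq_zero, ← map_sub, ← map_sub, residue_eq_zero_iff, mem_maximalIdeal,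
      mem_nonunits_iff, isUnit_map_iff]
    intro hu
    have h1 := hu.map c.hom
    have h2 : c.hom (b.hom (c.hom o)) = c.hom o := congrArg (fun g => g.hom (c.hom o)) hbc
    rw [map_sub, h2, sub_self] at h1
    exact not_isUnit_zero h1

theorem main_cur (k : Type) [Field k] [IsAlgClosed k] : ∃ (d : ℕ) (g : ℤ), 1 ≤ d ∧
    ∀ (H : Scheme.{0})
      (fam : ∀ R : CommRingCat.{0}, (Spec R ⟶ H) → Ideal (MvPolynomial (Fin 4) R)),
      Represents d g H fam →
      ∃ Z₁ ∈ irreducibleComponents (H ⨯ Spec (CommRingCat.of k) : Scheme.{0}),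
      ∃ Z₂ ∈ irreducibleComponents (H ⨯ Spec (CommRingCat.of k) : Scheme.{0}),
        Z₁ ≠ Z₂ ∧ Mon fam k Z₁ = Mon fam k Z₂ ∧
        ∀ Z ∈ ({Z₁, Z₂} : Set (Set (H ⨯ Spec (CommRingCat.of k) : Scheme.{0}))),
          ∃ (K : Type) (_ : Field K) (s : Spec (CommRingCat.of K) ⟶ H ⨯ Spec (CommRingCat.of k)),
            closure (Set.range s) = Z ∧ NoAssPt (fam (CommRingCat.of K) (s ≫ prod.fst)) := by
  classical
  obtain ⟨l, ζ, σ, j, hl, h11, hζ, j2, jl, hσ⟩ := root_cur k
  have : Fact l.Prime := ⟨hl⟩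
  obtain ⟨F, hF⟩ := realise hζ
  let e := 4 * Fintype.card (Jx (Pt l) (Ln l)) ^ 2 + 1
  obtain ⟨d, g, hd, N, hN⟩ := exists_hilbert_poly (cfg F e)
  refine ⟨d, g, hd, ?_⟩
  rintro H fam ⟨hfam, hnat, hinj, hsurj⟩
  obtain ⟨s0, hs0⟩ := hsurj (.of k) (I0 (cfg F e)) (isFamily_of_field (I0_hom _) hN)
  let τ : Spec (.of k) ⟶ Spec (.of k) := Spec.map σ.toCommRingCatIso.hom
  let T : H ⨯ Spec (.of k) ⟶ H ⨯ Spec (.of k) := prod.map (𝟙 H) τ
  let pt : Spec (.of k) := closedPoint k
  let t0 : Spec (.of k) ⟶ H ⨯ Spec (.of k) := prod.lift s0 (𝟙 _)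
  let t1 : Spec (.of k) ⟶ H ⨯ Spec (.of k) := prod.lift (τ ≫ s0) (𝟙 _)
  have hT : ∀ t t' : Spec (.of k) ⟶ H ⨯ Spec (.of k), t ≫ T = τ ≫ t' → ∀ z, T (t z) = t' z := by
    intro t t' h z
    rw [← Scheme.Hom.comp_apply, h, Scheme.Hom.comp_apply, Subsingleton.elim (τ z) z]
  have h01 : T (t1 pt) = t0 pt := hT _ _ (by ext1 <;> simp [T, t0, t1]) pt
  have hs1 : SameSub (fam (.of k) (t1 ≫ prod.fst)) (I0 (cfg (F.map σ.toRingHom) e)) := by
    rw [I0_cfg_map, prod.lift_fst]
    exact fun i => (hnat _ _ σ.toCommRingCatIso.hom s0 i).trans (SameSub.map _ hs0 i)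
  have hs0' : SameSub (fam (.of k) (t0 ≫ prod.fst)) (I0 (cfg F e)) := by
    rw [prod.lift_fst]
    exact hs0
  have key : ∀ (η : (H ⨯ Spec (.of k) : Scheme.{0})) (G : Aff k (inc l))
      (t : Spec (.of k) ⟶ H ⨯ Spec (.of k)), G.Good → t ≫ prod.snd = 𝟙 _ →
      SameSub (fam (.of k) (t ≫ prod.fst)) (I0 (cfg G e)) → η ⤳ t pt →
      ∀ (K : Type) [Field K] [IsAlgClosed K] (a : Scheme.residueField _ η ⟶ .of K),
      ∃ (V : ValuationSubring K) (ι : k →+* V) (I : Ideal (A K)) (M : ℕ),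
        Spec.map (CommRingCat.ofHom ((algebraMap V K).comp ι)) =
          (Spec.map a ≫ Scheme.fromSpecResidueField _ η) ≫ prod.snd ∧
        SameSub (fam (.of K) ((Spec.map a ≫ Scheme.fromSpecResidueField _ η) ≫ prod.fst)) I ∧
        Setup V K (cfg (G.map ((residue V).comp ι)) e) I M := by
    intro η G t hG ht hs hη K _ _ a
    obtain ⟨V, v, ι, v1, v2, v3⟩ := val_cur prod.snd t ht hη a
    have hJ := hfam (.of V) (v ≫ prod.fst)
    have h1 := hnat (.of V) (.of (ResidueField V)) (CommRingCat.ofHom (residue V)) (v ≫ prod.fst)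
    have h2 := hnat (.of k) (.of (ResidueField V)) (CommRingCat.ofHom ((residue V).comp ι))
      (t ≫ prod.fst)
    have h3 := hnat (.of V) (.of K) (CommRingCat.ofHom (algebraMap V K)) (v ≫ prod.fst)
    rw [← Category.assoc, v3, Category.assoc] at h1
    rw [← Category.assoc, v1] at h3
    obtain ⟨r1, M, r2⟩ := red_LC (V := V) (K := K) (cfg (G.map ((residue V).comp ι)) e) hJ.1
      hJ.2.2.1 (by
        rw [I0_cfg_map]
        exact fun i => (h1 i).symm.trans ((h2 i).trans (SameSub.map _ hs i)))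
    refine ⟨V, ι, _, M, ?_, h3, cfg_distinct (hG.map _) e, cfg_skew (hG.map _) e, le_rfl,
      hJ.1.map _, r1, r2⟩
    rw [← v1, Category.assoc, v2, ← Spec.map_comp]
    rfl
  have gen : ∀ Z ∈ irreducibleComponents (H ⨯ Spec (.of k) : Scheme.{0}), ∃ η, IsGenericPoint η Z :=
    fun Z hZ => QuasiSober.sober hZ.1 (isClosed_of_mem_irreducibleComponents Z hZ)
  have Z1 := irreducibleComponent_mem_irreducibleComponents (t0 pt)
  have Z2 : T ⁻¹' irreducibleComponent (t0 pt) ∈ irreducibleComponents _ :=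
    preimage_mem_irreducibleComponents Z1 T.isOpenEmbedding
      ⟨t0 pt, mem_irreducibleComponent, t1 pt, h01⟩
  have m1 : t1 pt ∈ T ⁻¹' irreducibleComponent (t0 pt) := by
    rw [Set.mem_preimage, h01]
    exact mem_irreducibleComponent
  refine ⟨_, Z1, _, Z2, fun h => ?_, ?_, ?_⟩
  · obtain ⟨η, hη⟩ := gen _ Z1
    let K := AlgebraicClosure (Scheme.residueField _ η)
    let a : Scheme.residueField _ η ⟶ .of K :=
      CommRingCat.ofHom (algebraMap (Scheme.residueField _ η) K)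
    obtain ⟨V0, ι0, J0, M0, a1, a2, S0⟩ := key η F t0 hF (prod.lift_snd _ _) hs0'
      (hη.specializes mem_irreducibleComponent) K a
    obtain ⟨V1, ι1, J1, M1, b1, b2, S1⟩ := key η _ t1 (hF.map _) (prod.lift_snd _ _) hs1
      (hη.specializes (h ▸ m1)) K a
    have ne : ∀ a b : Fin 4, a ≠ b → F.X (.inl a) ≠ F.X (.inl b) := fun a b h =>
      F.hX.ne fun e => h (Sum.inl_injective e)
    obtain ⟨μ, hμ⟩ := cr_exists (ne 1 3 (by decide)) (ne 2 0 (by decide))
    have hsep := sep_cur (by omega) hζ ι0 ι1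
      (congrArg CommRingCat.Hom.hom (Spec.map_injective (a1.trans b1.symm))) hF (hF.map _) S0 S1
      (fun i => (a2 i).symm.trans (b2 i)) hμ ((cr_map σ.toRingHom).2 hμ)
    have h1 : μ ≠ 1 := by
      rintro rfl
      unfold cr at hμ
      exact mul_ne_zero (sub_ne_zero.2 (ne 1 0 (by decide))) (sub_ne_zero.2 (ne 2 3 (by decide)))
        (by linear_combination hμ)
    have hpr : IsPrimitiveRoot μ l := by
      rw [← orderOf_eq_prime (force F hμ) h1]
      exact IsPrimitiveRoot.orderOf μ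
    obtain ⟨n, -, rfl⟩ := hζ.eq_pow_of_pow_eq_one (force F hμ)
    have e1 : σ.toRingHom (ζ ^ n) = (ζ ^ n) ^ j := by
      rw [map_pow, ← pow_mul, mul_comm, pow_mul, ← hσ]
      rfl
    rw [e1] at hsep
    rcases hsep with h | h
    · have := hpr.pow_inj (i := 1) (j := j) (by omega) (by omega) (by rwa [pow_one])
      omega
    · exact hpr.pow_ne_one_of_pos_of_lt (l := j + 1) (by omega) (by omega) (by rwa [pow_succ'])
  · have hfix : ∀ I : Ideal (A k), IsMonomialIdeal I → ∀ t : Spec (.of k) ⟶ H ⨯ Spec (.of k),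
        t ≫ prod.snd = 𝟙 _ → SameSub (fam (.of k) (t ≫ prod.fst)) I → ∀ z, T (t z) = t z := by
      rintro I ⟨s, rfl⟩ t ht hs
      have h1 : τ ≫ t ≫ prod.fst = t ≫ prod.fst := hinj _ _ _ fun i => by
        refine (hnat _ _ σ.toCommRingCatIso.hom _ i).trans ((SameSub.map _ hs i).trans ?_)
        rw [hs i, Ideal.map_span, ← Set.image_comp]
        congr 3
        ext1 m
        simp
      refine hT _ _ ?_
      ext1
      · simp [T, h1]
      · simp [T, ht, reassoc_of% ht]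
    ext I
    refine and_congr_right fun hI => and_congr_right fun _ => exists_congr fun t =>
      and_congr_right fun ht => and_congr_left fun hs => ?_
    simp only [Set.range_subset_iff, Set.mem_preimage, hfix I hI t ht hs]
  · have fin : ∀ Z ∈ irreducibleComponents (H ⨯ Spec (.of k) : Scheme.{0}),
        ∀ (G : Aff k (inc l)) (t : Spec (.of k) ⟶ H ⨯ Spec (.of k)), G.Good →
        t ≫ prod.snd = 𝟙 _ → SameSub (fam (.of k) (t ≫ prod.fst)) (I0 (cfg G e)) → t pt ∈ Z →
        ∃ (K : Type) (_ : Field K) (s : Spec (.of K) ⟶ H ⨯ Spec (.of k)),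
          closure (Set.range s) = Z ∧ NoAssPt (fam (.of K) (s ≫ prod.fst)) := by
      intro Z hZ G t hG ht hs hm
      obtain ⟨η, hη⟩ := gen Z hZ
      let K := AlgebraicClosure (Scheme.residueField _ η)
      let a : Scheme.residueField _ η ⟶ .of K :=
      CommRingCat.ofHom (algebraMap (Scheme.residueField _ η) K)
      obtain ⟨V, ι, J, M, -, a2, S⟩ := key η G t hG ht hs (hη.specializes hm) K a
      refine ⟨K, inferInstance, Spec.map a ≫ Scheme.fromSpecResidueField _ η, ?_, fun i => ?_⟩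
      · rw [Set.range_eq_singleton (y := η) fun z => by
          rw [Scheme.Hom.comp_apply, Scheme.fromSpecResidueField_apply]]
        exact hη
      · rw [a2 i]
        exact S.noAssPt i
    rintro Z (rfl | rfl)
    · exact fin _ Z1 F t0 hF (prod.lift_snd _ _) hs0' mem_irreducibleComponent
    · exact fin _ Z2 _ t1 (hF.map _) (prod.lift_snd _ _) hs1 m1

end Pool.Agent.MP_f49c72_ag.Cur
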