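import Pool.Agent.Mg.Feba2ed.G70a764

/-! A plane configuration that forces a cross-ratio to be a root of unity, and its symmetries. -/

namespace Pool.Agent.MP_f49c72_ag.Cur

open Pool.Agent.MP_eba2ed_ag

/-- index type of the points -/
abbrev Pt (l : ℕ) : Type := Fin 4 ⊕ ZMod l ⊕ ZMod l

/-- index type of the lines -/
abbrev Ln (l : ℕ) : Type := Fin 3 ⊕ ZMod l ⊕ ZMod l

/-- the incidence relation -/
def inc (l : ℕ) : Pt l → Ln l → Prop
  | .inl a, .inl b => b = 0 ∨ (b = 1 ∧ a = 1) ∨ (b = 2 ∧ a = 0)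
  | .inl a, .inr (.inl _) => a = 2
  | .inl a, .inr (.inr _) => a = 3
  | .inr (.inl _), .inl b => b = 1
  | .inr (.inl i), .inr (.inl j) => i = j
  | .inr (.inl i), .inr (.inr j) => i = j + 1
  | .inr (.inr _), .inl b => b = 2
  | .inr (.inr i), .inr (.inl j) => i = j
  | .inr (.inr i), .inr (.inr j) => i = j

/-- `c` is the cross-ratio of the four values -/
def cr {K : Type} [Field K] (z0 z1 z2 z3 c : K) : Prop :=
  c * (z1 - z3) * (z2 - z0) = (z3 - z0) * (z1 - z2)

theorem realise {k : Type} [Field k] [Infinite k] {l : ℕ} [Fact l.Prime] {ζ : k}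
    (hζ : IsPrimitiveRoot ζ l) : ∃ F : Aff k (inc l), F.Good := by
  have hl := (Fact.out : l.Prime)
  have h0 : ζ ≠ 0 := hζ.ne_zero hl.ne_zero
  have h1 : ζ ≠ 1 := hζ.ne_one hl.one_lt
  have h1' : ζ - 1 ≠ 0 := sub_ne_zero.2 h1
  have h1'' : 1 - ζ ≠ 0 := sub_ne_zero.2 h1.symm
  obtain ⟨z, z0, z1, z2⟩ : ∃ z : ZMod l → k, (∀ i, z i ≠ 0) ∧ (∀ i j, z i = z j ↔ i = j) ∧
      ∀ i, z (i + 1) = ζ * z i := by
    refine ⟨fun i => ζ ^ i.val, fun i => pow_ne_zero _ h0, fun i j => ⟨fun h =>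
      ZMod.val_injective l (hζ.pow_inj (ZMod.val_lt i) (ZMod.val_lt j) h), fun h => by rw [h]⟩,
      fun i => ?_⟩
    simp only
    rw [ZMod.val_add, ← pow_eq_pow_mod _ hζ.pow_eq_one, ZMod.val_one, pow_succ']
  let v : Pt l → Fin 3 → k := fun P => match P with
    | .inl a => ![![0, 1, 0], ![1, 0, 0], ![1, -1, 0], ![ζ, -1, 0]] a
    | .inr (.inl i) => ![z i, 0, 1]
    | .inr (.inr i) => ![0, z i, 1]
  let w : Ln l → Fin 3 → k := fun P => match P with
    | .inl b => ![![0, 0, 1], ![0, 1, 0], ![1, 0, 0]] b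
    | .inr (.inl i) => ![1, 1, -z i]
    | .inr (.inr i) => ![1, ζ, -z (i + 1)]
  refine exists_aff v w _ (fun P m => ?_) ?_ ?_ ?_ ?_
  · rcases P with a | i | i <;> rcases m with b | j | j
    · fin_cases a <;> fin_cases b <;> simp [inc, v, w, h0]
    · fin_cases a <;> simp [inc, v, w, ← sub_eq_add_neg, h1']
    · fin_cases a <;> simp [inc, v, w, ← sub_eq_add_neg, h0, h1'']
    · fin_cases b <;> simp [inc, v, w, z0]
    · simp [inc, v, w, ← sub_eq_add_neg, sub_eq_zero, z1]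
    · simp [inc, v, w, ← sub_eq_add_neg, sub_eq_zero, z1]
    · fin_cases b <;> simp [inc, v, w, z0]
    · simp [inc, v, w, ← sub_eq_add_neg, sub_eq_zero, z1]
    · simp [inc, v, w, ← sub_eq_add_neg, sub_eq_zero, z1, z2, h0]
  · rintro (a | i | i) h
    · fin_cases a
      · simpa [v] using congrFun h 1
      · simpa [v] using congrFun h 0
      · simpa [v] using congrFun h 0
      · simpa [v] using congrFun h 1
    · simpa [v] using congrFun h 2
    · simpa [v] using congrFun h 2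
  · intro P Q hPQ s t h
    have e0 := congrFun h 0
    have e1 := congrFun h 1
    have e2 := congrFun h 2
    clear h
    rcases P with a | i | i <;> rcases Q with b | j | j
    · fin_cases a <;> fin_cases b <;> simp [v] at e0 e1 e2 hPQ <;> grind
    · fin_cases a <;> simp [v] at e0 e1 e2 <;> grind
    · fin_cases a <;> simp [v] at e0 e1 e2 <;> grind
    · fin_cases b <;> simp [v] at e0 e1 e2 <;> grind
    · simp [v] at e0 e2 hPQ
      subst e2
      by_contra hs
      exact hPQ ((z1 _ _).1 (mul_left_cancel₀ hs e0))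
    · simp [v, z0] at e0
      exact e0
    · fin_cases b <;> simp [v] at e0 e1 e2 <;> grind
    · simp [v, z0] at e1
      exact e1
    · simp [v] at e1 e2 hPQ
      subst e2
      by_contra hs
      exact hPQ ((z1 _ _).1 (mul_left_cancel₀ hs e1))
  · rintro (b | i | i) h
    · fin_cases b
      · simpa [w] using congrFun h 2
      · simpa [w] using congrFun h 1
      · simpa [w] using congrFun h 0
    · simpa [w] using congrFun h 0
    · simpa [w] using congrFun h 0
  · rintro (b | i | i)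
    · fin_cases b
      · exact ⟨.inl 0, Or.inl rfl⟩
      · exact ⟨.inr (.inl 0), rfl⟩
      · exact ⟨.inr (.inr 0), rfl⟩
    · exact ⟨.inl 2, rfl⟩
    · exact ⟨.inl 3, rfl⟩

section

variable {K : Type} [Field K]

theorem cr_exists {z0 z1 z2 z3 : K} (h1 : z1 ≠ z3) (h2 : z2 ≠ z0) : ∃ c, cr z0 z1 z2 z3 c :=
  ⟨(z3 - z0) * (z1 - z2) / ((z1 - z3) * (z2 - z0)), by
    have := sub_ne_zero.2 h1
    have := sub_ne_zero.2 h2
    unfold cr
    field_simp⟩

theorem cr_map {K' : Type} [Field K'] (φ : K →+* K') {z0 z1 z2 z3 c : K} :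
    cr (φ z0) (φ z1) (φ z2) (φ z3) (φ c) ↔ cr z0 z1 z2 z3 c := by
  unfold cr
  rw [← φ.injective.eq_iff]
  simp

variable {l : ℕ}

theorem cr_XY (F : Aff K (inc l)) {c : K}
    (h : cr (F.X (.inl 0)) (F.X (.inl 1)) (F.X (.inl 2)) (F.X (.inl 3)) c) :
    cr (F.Y (.inl 0)) (F.Y (.inl 1)) (F.Y (.inl 2)) (F.Y (.inl 3)) c := by
  have e := fun a : Fin 4 => (F.inc_iff (.inl a) (.inl 0)).1 (Or.inl rfl)
  have hc := F.hc (.inl 0)
  have e' : ∀ a : Fin 4, F.Y (.inl a) = (F.a (.inl 0) * F.X (.inl a) + F.b (.inl 0)) / F.c (.inl 0) :=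
    fun a => by rw [eq_div_iff hc, ← e a, mul_comm]
  unfold cr at h ⊢
  simp only [e']
  field_simp
  linear_combination F.a (.inl 0) ^ 2 * h

theorem force [NeZero l] (F : Aff K (inc l)) {c : K}
    (h : cr (F.X (.inl 0)) (F.X (.inl 1)) (F.X (.inl 2)) (F.X (.inl 3)) c) : c ^ l = 1 := by
  let f : Ln l → Pt l → K := fun m P => F.c m * F.Y P - F.a m * F.X P - F.b m
  have hf : ∀ P m, inc l P m ↔ f m P = 0 := by
    intro P m
    rw [F.inc_iff]
    simp only [f]
    constructor <;> intro h <;> linear_combination h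
  let x := f (.inl 2)
  let y := f (.inl 1)
  let z := f (.inl 0)
  have hdet : ∀ m P Q R, inc l P m → inc l Q m → inc l R m →
      x P * (y Q * z R - y R * z Q) - y P * (x Q * z R - x R * z Q) +
        z P * (x Q * y R - x R * y Q) = 0 := by
    intro m P Q R hP hQ hR
    rw [F.inc_iff] at hP hQ hR
    have h : (F.X Q - F.X P) * (F.Y R - F.Y P) - (F.X R - F.X P) * (F.Y Q - F.Y P) = 0 := by
      apply mul_left_cancel₀ (F.hc m)
      linear_combination (F.X Q - F.X P) * hR - (F.X R - F.X P) * hQ + (F.X R - F.X Q) * hP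
    simp only [x, y, z, f]
    linear_combination (-F.a (.inl 2) * (F.c (.inl 1) * (-F.b (.inl 0)) -
        (-F.b (.inl 1)) * F.c (.inl 0)) -
      F.c (.inl 2) * ((-F.a (.inl 1)) * (-F.b (.inl 0)) - (-F.b (.inl 1)) * (-F.a (.inl 0))) +
      (-F.b (.inl 2)) * ((-F.a (.inl 1)) * F.c (.inl 0) - F.c (.inl 1) * (-F.a (.inl 0)))) * h
  have zI : ∀ a, z (.inl a) = 0 := fun a => (hf _ _).1 (Or.inl rfl)
  have x0 : x (.inl 0) = 0 := (hf _ _).1 (by simp [inc])
  have y1 : y (.inl 1) = 0 := (hf _ _).1 (by simp [inc])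
  have x2 : x (.inl 2) ≠ 0 := fun h => by simpa [inc] using (hf _ _).2 h
  have y3 : y (.inl 3) ≠ 0 := fun h => by simpa [inc] using (hf _ _).2 h
  have yP : ∀ i, y (.inr (.inl i)) = 0 := fun i => (hf _ _).1 rfl
  have xP : ∀ i, x (.inr (.inl i)) ≠ 0 := fun i h => by simpa [inc] using (hf _ _).2 h
  have zP : ∀ i, z (.inr (.inl i)) ≠ 0 := fun i h => by simpa [inc] using (hf _ _).2 h
  have xQ : ∀ i, x (.inr (.inr i)) = 0 := fun i => (hf _ _).1 rfl
  have zQ : ∀ i, z (.inr (.inr i)) ≠ 0 := fun i h => by simpa [inc] using (hf _ _).2 h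
  have hlin : ∀ m a b, F.c (.inl 0) * (f m (.inl a) - f m (.inl b)) =
      (F.c m * F.a (.inl 0) - F.a m * F.c (.inl 0)) * (F.X (.inl a) - F.X (.inl b)) := by
    intro m a b
    have ea := zI a
    have eb := zI b
    simp only [z, f] at ea eb ⊢
    linear_combination F.c m * ea - F.c m * eb
  have hc : c * (y (.inl 3) * x (.inl 2)) = x (.inl 3) * y (.inl 2) := by
    have a1 := hlin (.inl 2) 2 0
    have a2 := hlin (.inl 2) 3 0
    have a3 := hlin (.inl 1) 2 1
    have a4 := hlin (.inl 1) 3 1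
    change F.c (.inl 0) * (x _ - x _) = _ at a1 a2
    change F.c (.inl 0) * (y _ - y _) = _ at a3 a4
    rw [x0, sub_zero] at a1 a2
    rw [y1, sub_zero] at a3 a4
    apply mul_left_cancel₀ (mul_ne_zero (F.hc (.inl 0)) (F.hc (.inl 0)))
    unfold cr at h
    calc _ = c * ((F.c (.inl 0) * y (.inl 3)) * (F.c (.inl 0) * x (.inl 2))) := by ring
      _ = (F.c (.inl 0) * x (.inl 3)) * (F.c (.inl 0) * y (.inl 2)) := by
        rw [a1, a2, a3, a4]
        linear_combination (-(F.c (.inl 1) * F.a (.inl 0) - F.a (.inl 1) * F.c (.inl 0)) *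
          (F.c (.inl 2) * F.a (.inl 0) - F.a (.inl 2) * F.c (.inl 0))) * h
      _ = _ := by ring
  let s : ZMod l → K := fun i => x (.inr (.inl i)) / z (.inr (.inl i))
  have hstep : ∀ i, s (i + 1) = s i * c := by
    intro i
    have h1 := hdet (.inr (.inl i)) (.inr (.inl i)) (.inr (.inr i)) (.inl 2) rfl rfl rfl
    have h2 := hdet (.inr (.inr i)) (.inr (.inl (i + 1))) (.inr (.inr i)) (.inl 3) rfl rfl rfl
    rw [yP, xQ, zI] at h1 h2
    have a1 := zP i
    have a2 := zP (i + 1)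
    simp only [s]
    field_simp
    apply mul_left_cancel₀ (mul_ne_zero (mul_ne_zero y3 x2) (zQ i))
    linear_combination (-(x (.inl 2) * z (.inr (.inl i)))) * h2 +
      (x (.inl 3) * z (.inr (.inl (i + 1)))) * h1 -
      (x (.inr (.inl i)) * z (.inr (.inl (i + 1))) * z (.inr (.inr i))) * hc
  have hprod := Equiv.prod_comp (Equiv.addRight (1 : ZMod l)) s
  simp only [Equiv.coe_addRight, hstep, Finset.prod_mul_distrib, Finset.prod_const,
    Finset.card_univ, ZMod.card] at hprod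
  exact (mul_eq_left₀ (Finset.prod_ne_zero_iff.2 fun i _ => div_ne_zero (xP i) (zP i))).1 hprod

theorem symm_inc [NeZero l] (hl : 4 ≤ l) {ρ : Pt l → Pt l} {τ : Ln l → Ln l}
    (hρ : Function.Injective ρ) (hτ : Function.Injective τ)
    (h : ∀ P m, inc l (ρ P) (τ m) ↔ inc l P m) :
    (ρ (.inl 0) = .inl 0 ∧ ρ (.inl 1) = .inl 1 ∨ ρ (.inl 0) = .inl 1 ∧ ρ (.inl 1) = .inl 0) ∧
      (ρ (.inl 2) = .inl 2 ∧ ρ (.inl 3) = .inl 3 ∨ ρ (.inl 2) = .inl 3 ∧ ρ (.inl 3) = .inl 2) := by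
  classical
  have few : ∀ P : Pt l, P ≠ .inl 2 → P ≠ .inl 3 → ∃ a b c : Ln l, ∀ m, inc l P m →
      m ∈ ({a, b, c} : Finset (Ln l)) := by
    rintro (a | i | i) h2 h3
    · refine ⟨.inl 0, .inl 1, .inl 2, ?_⟩
      rintro (b | j | j) hm
      · fin_cases b <;> simp
      · exact absurd (congrArg Sum.inl hm) h2
      · exact absurd (congrArg Sum.inl hm) h3
    · refine ⟨.inl 1, .inr (.inl i), .inr (.inr (i - 1)), ?_⟩
      rintro (b | j | j) hm <;> simp only [inc] at hm <;> simp [hm]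
    · refine ⟨.inl 2, .inr (.inl i), .inr (.inr i), ?_⟩
      rintro (b | j | j) hm <;> simp only [inc] at hm <;> simp [hm]
  have many : ∀ (P : Pt l) (f : ZMod l → Ln l), Function.Injective f → (∀ i, inc l P (f i)) →
      ρ P = .inl 2 ∨ ρ P = .inl 3 := by
    intro P f hf hP
    by_contra hc
    obtain ⟨a, b, c, hm⟩ := few (ρ P) (fun e => hc (Or.inl e)) (fun e => hc (Or.inr e))
    have := Finset.card_le_card_of_injOn (s := Finset.univ) (fun i => τ (f i))
      (fun i _ => hm _ ((h _ _).2 (hP i))) (hτ.comp hf).injOn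
    rw [Finset.card_univ, ZMod.card] at this
    have := this.trans Finset.card_le_three
    omega
  have h2 := many (.inl 2) (fun i => .inr (.inl i))
    (Sum.inr_injective.comp Sum.inl_injective) fun _ => rfl
  have h3 := many (.inl 3) (fun i => .inr (.inr i))
    (Sum.inr_injective.comp Sum.inr_injective) fun _ => rfl
  have ne : ∀ a b : Fin 4, a ≠ b → ρ (.inl a) ≠ ρ (.inl b) := fun a b hab e =>
    hab (Sum.inl_injective (hρ e))
  have h23 : ρ (.inl 2) = .inl 2 ∧ ρ (.inl 3) = .inl 3 ∨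
      ρ (.inl 2) = .inl 3 ∧ ρ (.inl 3) = .inl 2 := by
    have := ne 2 3 (by decide)
    grind
  have on := fun a : Fin 4 => (h (.inl a) (.inl 0)).2 (Or.inl rfl)
  have hτ0 : τ (.inl 0) = .inl 0 := by
    have a2 := on 2
    have a3 := on 3
    have key : ∀ m, inc l (.inl 2) m → inc l (.inl 3) m → m = .inl 0 := by
      rintro (b | j | j) e2 e3 <;> simp [inc] at e2 e3
      rw [e2]
    rcases h23 with ⟨e2, e3⟩ | ⟨e2, e3⟩ <;> rw [e2] at a2 <;> rw [e3] at a3
    exacts [key _ a2 a3, key _ a3 a2]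
  have h01 : ∀ a : Fin 4, a ≠ 2 → a ≠ 3 → ρ (.inl a) = .inl 0 ∨ ρ (.inl a) = .inl 1 := by
    intro a a2 a3
    have b1 := on a
    have b2 := ne a 2 a2
    have b3 := ne a 3 a3
    rw [hτ0] at b1
    generalize ρ (.inl a) = P at b1 b2 b3
    rcases P with b | i | i
    · rcases h23 with ⟨e2, e3⟩ | ⟨e2, e3⟩ <;> rw [e2] at b2 <;> rw [e3] at b3 <;>
        fin_cases b <;>
        first | exact Or.inl rfl | exact Or.inr rfl | exact absurd rfl b2 | exact absurd rfl b3
    · simp [inc] at b1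
    · simp [inc] at b1
  refine ⟨?_, h23⟩
  have a0 := h01 0 (by decide) (by decide)
  have a1 := h01 1 (by decide) (by decide)
  have := ne 0 1 (by decide)
  grind

theorem cr_perm {z : Fin 4 → K} (hz : Function.Injective z) {μ c w0 w1 w2 w3 : K}
    (h : cr (z 0) (z 1) (z 2) (z 3) μ) (h' : cr w0 w1 w2 w3 c)
    (h1 : w0 = z 0 ∧ w1 = z 1 ∨ w0 = z 1 ∧ w1 = z 0)
    (h2 : w2 = z 2 ∧ w3 = z 3 ∨ w2 = z 3 ∧ w3 = z 2) : c = μ ∨ c * μ = 1 := by
  have ne : ∀ a b, a ≠ b → z a - z b ≠ 0 := fun a b hab => sub_ne_zero.2 (hz.ne hab)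
  have n1 := mul_ne_zero (ne 1 3 (by decide)) (ne 2 0 (by decide))
  unfold cr at h h'
  rcases h1 with ⟨rfl, rfl⟩ | ⟨rfl, rfl⟩ <;> rcases h2 with ⟨rfl, rfl⟩ | ⟨rfl, rfl⟩
  · exact Or.inl (mul_right_cancel₀ n1 (by linear_combination h' - h))
  · exact Or.inr (mul_right_cancel₀ n1 (by linear_combination h' + c * h))
  · exact Or.inr (mul_right_cancel₀ n1 (by linear_combination h' + c * h))
  · exact Or.inl (mul_right_cancel₀ n1 (by linear_combination h' - h))

end

end Pool.Agent.MP_f49c72_ag.Cur
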