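import Pool.Agent.MP_eba2ed_ag.Lcm
import Pool.Agent.MP_f49c72_ag.Cur.Plane

/-! Cross-ratios of lines in space, their specialisation, and relabellings. -/

set_option linter.unusedSectionVars false

namespace Pool.Agent.MP_f49c72_ag.Cur

open Pool.Agent.MP_eba2ed_ag MvPolynomial Module IsLocalRing

section

variable {k : Type} [Field k] {Pt Ln : Type} {inc : Pt → Ln → Prop}

/-- `Z` is a coordinate of the planes through the line `t` that contain the lines `P` -/
def Lnk (U : Jx Pt Ln → Submodule k (A k)) (t : Bool) (Z : Pt → k) : Prop :=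
  ∃ e f, e ∈ U (.inr (.inl t)) ∧ f ∈ U (.inr (.inl t)) ∧ e ∈ U (.inl none) ∧
    (∀ s u : k, s • e + u • f = 0 → s = 0 ∧ u = 0) ∧ ∀ P, Z P • e + f ∈ U (.inl (some P))

/-- four planes through a line with cross-ratio `c` -/
def Cnd (T U0 U1 U2 U3 : Submodule k (A k)) (c : k) : Prop :=
  ∃ w0 w1, w0 ≠ 0 ∧ w1 ≠ 0 ∧ w0 ∈ T ∧ w1 ∈ T ∧ w0 ∈ U0 ∧ w1 ∈ U1 ∧ w0 + w1 ∈ U2 ∧
    w0 + c • w1 ∈ U3

theorem aff_lnk [Nonempty Pt] {U : Jx Pt Ln → Submodule k (A k)} (h : Pattern inc U)
    (hU : ∀ i, U i ≤ Hn k 1) (h2 : ∀ i, finrank k (U i) = 2) :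
    ∃ F : Aff k inc, Lnk U false F.X := by
  have hfin : ∀ i, Module.Finite k (U i) := fun i => Submodule.finiteDimensional_of_le (hU i)
  have hbot : ∀ {i j : Jx Pt Ln}, U i ⊓ U j = ⊥ → ∀ x, x ∈ U i → x ∈ U j → x = 0 := by
    intro i j hij x hi hj
    rw [← Submodule.mem_bot k, ← hij]; exact ⟨hi, hj⟩
  have hex : ∀ b t, ∃ x ∈ U (.inl b) ⊓ U (.inr (.inl t)), x ≠ 0 :=
    fun b t => Submodule.exists_mem_ne_zero_of_ne_bot (h.b0 b t)
  choose α hα hα0 using hex
  obtain ⟨P0⟩ := ‹Nonempty Pt›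
  have hind : ∀ t (b b' : Option Pt), b ≠ b' → ∀ s u : k, s • α b t + u • α b' t = 0 →
      s = 0 ∧ u = 0 := by
    intro t b b' hb s u hsu
    have h1 : s • α b t = 0 := by
      refine hbot (h.bb b b' hb) _ (Submodule.smul_mem _ _ (hα b t).1) ?_
      rw [eq_neg_of_add_eq_zero_left hsu]
      exact neg_mem (Submodule.smul_mem _ _ (hα b' t).1)
    rw [h1, zero_add] at hsu
    exact ⟨(smul_eq_zero.1 h1).resolve_right (hα0 b t),
      (smul_eq_zero.1 hsu).resolve_right (hα0 b' t)⟩
  have hnorm : ∀ t (P : Pt), ∃ x : k, x • α none t + α (some P0) t ∈ U (.inl (some P)) := by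
    intro t P
    obtain ⟨s, u, hsu⟩ := exists_coeffs (h2 _) (hα none t).2 (hα (some P0) t).2
      (hind t _ _ (by simp)) (hα (some P) t).2
    have hu : u ≠ 0 := by
      rintro rfl
      have := (hind t none (some P) (by simp) s (-1) (by rw [← hsu]; simp)).2
      simp at this
    refine ⟨s / u, ?_⟩
    have : (s / u) • α none t + α (some P0) t = u⁻¹ • α (some P) t := by
      rw [← hsu, smul_add, smul_smul, smul_smul, inv_mul_cancel₀ hu, one_smul, div_eq_inv_mul]
    rw [this]
    exact Submodule.smul_mem _ _ (hα _ t).1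
  choose Z hZ using hnorm
  have hZinj : ∀ t, Function.Injective (Z t) := by
    intro t P Q hPQ
    by_contra hne
    have h1 := hbot (h.bb (some P) (some Q) (by simpa using hne)) _ (hZ t P) (hPQ ▸ hZ t Q)
    have := (hind t none (some P0) (by simp) (Z t P) 1 (by simpa using h1)).2
    simp at this
  set e1 := α none false
  set e2 := α (some P0) false
  set e3 := α none true
  set e4 := α (some P0) true
  have hE : U (.inr (.inl false)) ⊓ U (.inr (.inl true)) = ⊥ := h.aa _ _ (by simp)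
  have m1 : e1 ∈ U (.inr (.inl false)) := (hα _ _).2
  have m2 : e2 ∈ U (.inr (.inl false)) := (hα _ _).2
  have m3 : e3 ∈ U (.inr (.inl true)) := (hα _ _).2
  have m4 : e4 ∈ U (.inr (.inl true)) := (hα _ _).2
  have hsplit : ∀ x y : A k, x ∈ U (.inr (.inl false)) → y ∈ U (.inr (.inl true)) → x + y = 0 →
      x = 0 ∧ y = 0 := by
    intro x y hx hy hxy
    have : x = 0 := hbot hE x hx (by rw [eq_neg_of_add_eq_zero_left hxy]; exact neg_mem hy)
    exact ⟨this, by simpa [this] using hxy⟩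
  have hind4 : ∀ c1 c2 c3 c4 : k, c1 • e1 + c2 • e2 + (c3 • e3 + c4 • e4) = 0 →
      c1 = 0 ∧ c2 = 0 ∧ c3 = 0 ∧ c4 = 0 := by
    intro c1 c2 c3 c4 hc
    obtain ⟨h1, h3⟩ := hsplit _ _ (add_mem (Submodule.smul_mem _ _ m1) (Submodule.smul_mem _ _ m2))
      (add_mem (Submodule.smul_mem _ _ m3) (Submodule.smul_mem _ _ m4)) hc
    obtain ⟨a1, a2⟩ := hind false _ _ (by simp) _ _ h1
    obtain ⟨a3, a4⟩ := hind true _ _ (by simp) _ _ h3
    exact ⟨a1, a2, a3, a4⟩
  have hspan : ∀ r ∈ Hn k 1, ∃ c1 c2 c3 c4 : k, c1 • e1 + c2 • e2 + (c3 • e3 + c4 • e4) = r := by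
    intro r hr
    rw [← sup_eq_of_skew (hU _) (hU _) (h2 _) (h2 _) hE] at hr
    obtain ⟨x, hx, y, hy, rfl⟩ := Submodule.mem_sup.1 hr
    obtain ⟨c1, c2, rfl⟩ := exists_coeffs (h2 _) m1 m2 (hind false _ _ (by simp)) hx
    obtain ⟨c3, c4, rfl⟩ := exists_coeffs (h2 _) m3 m4 (hind true _ _ (by simp)) hy
    exact ⟨c1, c2, c3, c4, rfl⟩
  have hline : ∀ l : Ln, ∃ a b c : k, a ≠ 0 ∧ c ≠ 0 ∧
      ∀ P, inc P l ↔ c * Z true P = a * Z false P + b := by
    intro l
    have n0 : ∀ x, x ∈ U (.inr (.inr l)) → x ∈ U (.inr (.inl false)) → x = 0 :=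
      hbot (h.aa _ _ (by simp))
    have n1 : ∀ x, x ∈ U (.inr (.inr l)) → x ∈ U (.inr (.inl true)) → x = 0 :=
      hbot (h.aa _ _ (by simp))
    obtain ⟨q, hq, hq0⟩ := Submodule.exists_mem_ne_zero_of_ne_bot (h.inf l)
    obtain ⟨σ, τ, rfl⟩ := exists_coeffs (h2 _) (hα none false).1 (hα none true).1
      (fun s t hst => by
        have := hind4 s 0 t 0 (by simpa using hst)
        exact ⟨this.1, this.2.2.1⟩) hq.1
    have hσ : σ ≠ 0 := by
      rintro rfl
      exact hq0 (n1 _ hq.2 (by simpa using Submodule.smul_mem _ _ m3))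
    have hτ : τ ≠ 0 := by
      rintro rfl
      exact hq0 (n0 _ hq.2 (by simpa using Submodule.smul_mem _ _ m1))
    obtain ⟨r, hr, hrq⟩ : ∃ r ∈ U (.inr (.inr l)), r ∉ Submodule.span k {σ • e1 + τ • e3} := by
      by_contra hall
      push Not at hall
      have h3 := Submodule.finrank_mono (show U (.inr (.inr l)) ≤ _ from hall)
      rw [h2, finrank_span_singleton hq0] at h3
      omega
    obtain ⟨r1, r2, r3, r4, rfl⟩ := hspan r (hU _ hr)
    have hr2 : r2 ≠ 0 := by
      rintro rfl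
      apply hrq
      rw [Submodule.mem_span_singleton]
      refine ⟨r1 / σ, ?_⟩
      have := n1 _ (sub_mem hr (Submodule.smul_mem _ (r1 / σ) hq.2)) (by
        have : r1 • e1 + (0 : k) • e2 + (r3 • e3 + r4 • e4) - (r1 / σ) • (σ • e1 + τ • e3) =
            (r3 - r1 / σ * τ) • e3 + r4 • e4 := by
          match_scalars <;> field_simp <;> ring
        rw [this]
        exact add_mem (Submodule.smul_mem _ _ m3) (Submodule.smul_mem _ _ m4))
      exact (sub_eq_zero.1 this).symm
    have hr4 : r4 ≠ 0 := by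
      rintro rfl
      apply hrq
      rw [Submodule.mem_span_singleton]
      refine ⟨r3 / τ, ?_⟩
      have := n0 _ (sub_mem hr (Submodule.smul_mem _ (r3 / τ) hq.2)) (by
        have : r1 • e1 + r2 • e2 + (r3 • e3 + (0 : k) • e4) - (r3 / τ) • (σ • e1 + τ • e3) =
            (r1 - r3 / τ * σ) • e1 + r2 • e2 := by
          match_scalars <;> field_simp <;> ring
        rw [this]
        exact add_mem (Submodule.smul_mem _ _ m1) (Submodule.smul_mem _ _ m2))
      exact (sub_eq_zero.1 this).symm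
    refine ⟨τ * r2, σ * r3 - τ * r1, σ * r4, mul_ne_zero hτ hr2, mul_ne_zero hσ hr4, fun P => ?_⟩
    rw [h.pl]
    constructor
    · intro hne
      obtain ⟨w, hw, hw0⟩ := Submodule.exists_mem_ne_zero_of_ne_bot hne
      obtain ⟨s, t, hst⟩ := exists_coeffs (h2 _) (hZ false P) (hZ true P) (fun s t hst => by
        have := hind4 (s * Z false P) s (t * Z true P) t (by rw [← hst]; module)
        exact ⟨this.2.1, this.2.2.2⟩) hw.1
      obtain ⟨u, v, huv⟩ := exists_coeffs (h2 _) hq.2 hr (fun u v huv => by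
        have := hind4 (u * σ + v * r1) (v * r2) (u * τ + v * r3) (v * r4) (by rw [← huv]; module)
        have hv : v = 0 := (mul_eq_zero.1 this.2.1).resolve_right hr2
        have hu := this.1
        rw [hv, zero_mul, add_zero] at hu
        exact ⟨(mul_eq_zero.1 hu).resolve_right hσ, hv⟩) hw.2
      obtain ⟨a1, a2, a3, a4⟩ := hind4 (u * σ + v * r1 - s * Z false P) (v * r2 - s)
        (u * τ + v * r3 - t * Z true P) (v * r4 - t) (by
          rw [← sub_self w]
          nth_rewrite 1 [← huv]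
          rw [← hst]
          module)
      have hv : v ≠ 0 := by
        rintro rfl
        have hs : s = 0 := by linear_combination -a2
        have ht : t = 0 := by linear_combination -a4
        exact hw0 (by rw [← hst, hs, ht]; simp)
      apply mul_left_cancel₀ hv
      linear_combination τ * a1 - σ * a3 - τ * Z false P * a2 + σ * Z true P * a4
    · intro heq hb
      have hw : r2 • (Z false P • e1 + e2) + r4 • (Z true P • e3 + e4) =
          ((r2 * Z false P - r1) / σ) • (σ • e1 + τ • e3) +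
            (r1 • e1 + r2 • e2 + (r3 • e3 + r4 • e4)) := by
        match_scalars
        · field_simp; ring
        · ring
        · field_simp; linear_combination heq
        · ring
      have h0 := hbot hb _ (add_mem (Submodule.smul_mem _ r2 (hZ false P))
        (Submodule.smul_mem _ r4 (hZ true P)))
        (by rw [hw]; exact add_mem (Submodule.smul_mem _ _ hq.2) hr)
      exact hr2 (hind4 (r2 * Z false P) r2 (r4 * Z true P) r4 (by rw [← h0]; module)).2.1
  choose a b c ha hc hinc using hline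
  exact ⟨⟨Z false, Z true, a, b, c, hZinj false, hZinj true, ha, hc, fun P l => hinc l P⟩,
    e1, e2, m1, m2, (hα none false).1, hind false _ _ (by simp), hZ false⟩

theorem lnk_cfg (F : Aff k inc) (e : ℕ) (t : Bool) :
    Lnk (fun i => pc (cfg F e i).P 1) t (if t then F.X else F.Y) := by
  have hm : ∀ i w, ∑ j, w j * Mx F i j 0 = 0 → ∑ j, w j * Mx F i j 1 = 0 →
      lin w ∈ pc (cfg F e i).P 1 := fun i w a b =>
    ⟨(psi_lin_eq_zero (Mx F i) w).2 ⟨a, b⟩, lin_homog w⟩
  have hl : ∀ (s u : k) (v w : Fin 4 → k), s • lin v + u • lin w = lin (s • v + u • w) := by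
    intro s u v w
    simp only [lin, Finset.smul_sum, ← Finset.sum_add_distrib, smul_eq_C_mul, Pi.add_apply,
      Pi.smul_apply, smul_eq_mul, map_add, map_mul]
    exact Finset.sum_congr rfl fun _ _ => by ring
  cases t
  · refine ⟨lin ![0, 0, 0, -1], lin ![0, 0, 1, 0], hm _ _ ?_ ?_, hm _ _ ?_ ?_, hm _ _ ?_ ?_,
      fun s u h => ?_, fun P => ?_⟩
    iterate 6 simp [Mx, Fin.sum_univ_four]
    · rw [hl] at h
      have h1 := congrFun (lin_eq_zero h) 3
      have h2 := congrFun (lin_eq_zero h) 2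
      exact ⟨by simpa using h1, by simpa using h2⟩
    · rw [← one_smul k (lin ![0, 0, 1, 0]), hl]
      refine hm _ _ ?_ ?_ <;> simp [Mx, Fin.sum_univ_four]
  · refine ⟨lin ![0, -1, 0, 0], lin ![1, 0, 0, 0], hm _ _ ?_ ?_, hm _ _ ?_ ?_, hm _ _ ?_ ?_,
      fun s u h => ?_, fun P => ?_⟩
    iterate 6 simp [Mx, Fin.sum_univ_four]
    · rw [hl] at h
      have h1 := congrFun (lin_eq_zero h) 1
      have h2 := congrFun (lin_eq_zero h) 0
      exact ⟨by simpa using h1, by simpa using h2⟩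
    · rw [← one_smul k (lin ![1, 0, 0, 0]), hl]
      refine hm _ _ ?_ ?_ <;> simp [Mx, Fin.sum_univ_four]

theorem cnd_of_cr {U : Jx Pt Ln → Submodule k (A k)} {t : Bool} {Z : Pt → k} (h : Lnk U t Z)
    {a b c d : Pt} (h1 : Z b ≠ Z c) (h2 : Z c ≠ Z a) {r : k} (hr : cr (Z a) (Z b) (Z c) (Z d) r) :
    Cnd (U (.inr (.inl t))) (U (.inl (some a))) (U (.inl (some b))) (U (.inl (some c)))
      (U (.inl (some d))) r := by
  obtain ⟨e, f, he, hf, -, hi, hZ⟩ := h
  have hT : ∀ s x : k, s • (x • e + f) ∈ U (.inr (.inl t)) := fun s x =>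
    Submodule.smul_mem _ _ (add_mem (Submodule.smul_mem _ _ he) hf)
  have h0 : ∀ s x : k, s ≠ 0 → s • (x • e + f) ≠ 0 := fun s x hs h =>
    hs (hi (s * x) s (by rw [← h]; module)).2
  refine ⟨(Z b - Z c) • (Z a • e + f), (Z c - Z a) • (Z b • e + f), h0 _ _ (sub_ne_zero.2 h1),
    h0 _ _ (sub_ne_zero.2 h2), hT _ _, hT _ _, Submodule.smul_mem _ _ (hZ a),
    Submodule.smul_mem _ _ (hZ b), ?_, ?_⟩
  · have : (Z b - Z c) • (Z a • e + f) + (Z c - Z a) • (Z b • e + f) =
        (Z b - Z a) • (Z c • e + f) := by module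
    rw [this]
    exact Submodule.smul_mem _ _ (hZ c)
  · have : (Z b - Z c) • (Z a • e + f) + r • (Z c - Z a) • (Z b • e + f) =
        (Z b - Z c + r * (Z c - Z a)) • (Z d • e + f) := by
      unfold cr at hr
      match_scalars
      · linear_combination hr
      · ring
    rw [this]
    exact Submodule.smul_mem _ _ (hZ d)

theorem cr_of_cnd {U : Jx Pt Ln → Submodule k (A k)} (hp : Pattern inc U)
    (h2 : ∀ i, finrank k (U i) = 2) {t : Bool} {Z : Pt → k} (h : Lnk U t Z) {a b c d : Pt} {r : k}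
    (hr : Cnd (U (.inr (.inl t))) (U (.inl (some a))) (U (.inl (some b))) (U (.inl (some c)))
      (U (.inl (some d))) r) : cr (Z a) (Z b) (Z c) (Z d) r := by
  obtain ⟨e, f, he, hf, hn, hi, hZ⟩ := h
  have hfin : Module.Finite k (U (.inr (.inl t))) :=
    Module.finite_of_finrank_pos (by rw [h2]; norm_num)
  have key : ∀ P w, w ∈ U (.inr (.inl t)) → w ∈ U (.inl (some P)) →
      ∃ s : k, w = s • (Z P • e + f) := by
    intro P w h1 h3
    obtain ⟨s, u, rfl⟩ := exists_coeffs (h2 _) he hf hi h1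
    have h4 : (s - u * Z P) • e ∈ U (.inl none) ⊓ U (.inl (some P)) := by
      refine ⟨Submodule.smul_mem _ _ hn, ?_⟩
      have : (s - u * Z P) • e = s • e + u • f - u • (Z P • e + f) := by module
      rw [this]
      exact sub_mem h3 (Submodule.smul_mem _ _ (hZ P))
    rw [hp.bb _ _ (by simp), Submodule.mem_bot] at h4
    have h5 := (hi (s - u * Z P) 0 (by simpa using h4)).1
    exact ⟨u, by rw [sub_eq_zero.1 h5]; module⟩
  obtain ⟨w0, w1, -, n1, t0, t1, m0, m1, m2, m3⟩ := hr
  obtain ⟨s2, e2⟩ := key c _ (add_mem t0 t1) m2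
  obtain ⟨s3, e3⟩ := key d _ (add_mem t0 (Submodule.smul_mem _ r t1)) m3
  obtain ⟨s0, rfl⟩ := key a _ t0 m0
  obtain ⟨s1, rfl⟩ := key b _ t1 m1
  have hs : s1 ≠ 0 := fun h => n1 (by rw [h, zero_smul])
  obtain ⟨a1, a2⟩ := hi (s0 * Z a + s1 * Z b - s2 * Z c) (s0 + s1 - s2) (by
    rw [← sub_self (s2 • (Z c • e + f))]
    nth_rewrite 1 [← e2]
    module)
  obtain ⟨a3, a4⟩ := hi (s0 * Z a + r * s1 * Z b - s3 * Z d) (s0 + r * s1 - s3) (by
    rw [← sub_self (s3 • (Z d • e + f))]
    nth_rewrite 1 [← e3]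
    module)
  unfold cr
  apply mul_left_cancel₀ hs
  linear_combination (Z c - Z a) * (a3 - Z d * a4) + (Z a - Z d) * (a1 - Z c * a2)

/-- which lines meet -/
def adj (inc : Pt → Ln → Prop) : Jx Pt Ln → Jx Pt Ln → Prop
  | .inl (some P), .inr (.inr l) => inc P l
  | .inr (.inr l), .inl (some P) => inc P l
  | .inl _, .inr _ => True
  | .inr _, .inl _ => True
  | .inl _, .inl _ => False
  | .inr _, .inr _ => False

theorem adj_iff {U : Jx Pt Ln → Submodule k (A k)} (h : Pattern inc U) {i j : Jx Pt Ln}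
    (hij : i ≠ j) : adj inc i j ↔ U i ⊓ U j ≠ ⊥ := by
  have key : ∀ b a, adj inc (.inl b) (.inr a) ↔ U (.inl b) ⊓ U (.inr a) ≠ ⊥ := by
    rintro (_ | P) (t | l)
    · exact iff_of_true trivial (h.b0 _ t)
    · exact iff_of_true trivial (h.inf l)
    · exact iff_of_true trivial (h.b0 _ t)
    · exact h.pl P l
  rcases i with b | a <;> rcases j with b' | a'
  · refine iff_of_false ?_ (not_not.2 (h.bb b b' (by simpa using hij)))
    cases b <;> exact id
  · exact key _ _
  · rw [inf_comm, ← key]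
    rcases a with t | l <;> cases b' <;> rfl
  · refine iff_of_false ?_ (not_not.2 (h.aa a a' (by simpa using hij)))
    cases a <;> exact id

theorem relabel [Finite Pt] [Finite Ln] (hP : ∀ P, ∃ l, ¬ inc P l) (hL : ∀ l, ∃ P, ¬ inc P l)
    {π : Jx Pt Ln → Jx Pt Ln} (hπ : Function.Injective π)
    (h : ∀ i j, adj inc (π i) (π j) ↔ adj inc i j) :
    ∃ (t : Bool) (ρ : Pt → Pt) (τ : Ln → Ln), π (.inr (.inl false)) = .inr (.inl t) ∧
      (∀ P, π (.inl (some P)) = .inl (some (ρ P))) ∧ Function.Injective ρ ∧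
      Function.Injective τ ∧ ∀ P l, inc (ρ P) (τ l) ↔ inc P l := by
  have hs := Finite.surjective_of_injective hπ
  have ll : ∀ b b', ¬ adj inc (.inl b) (.inl b') := fun b b' => by cases b <;> exact id
  have rr : ∀ a a', ¬ adj inc (.inr a) (.inr a') := fun a a' => by cases a <;> exact id
  have dom : ∀ t j, adj inc j (π (.inr (.inl t))) ∨ adj inc j (π (.inl none)) := by
    intro t j
    obtain ⟨j, rfl⟩ := hs j
    rw [h, h]
    rcases j with (_ | P) | (t' | l)
    exacts [Or.inl trivial, Or.inl trivial, Or.inr trivial, Or.inr trivial]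
  have hn : π (.inl none) = .inl none := by
    have hadj : ∀ t, adj inc (π (.inr (.inl t))) (π (.inl none)) := fun t => (h _ _).2 trivial
    have hne : π (.inr (.inl false)) ≠ π (.inr (.inl true)) := fun e => by simpa using hπ e
    generalize π (.inl none) = n at dom hadj
    rcases n with (_ | P) | a
    · rfl
    · obtain ⟨l, hl⟩ := hP P
      have h1 := (dom false (.inr (.inr l))).resolve_right hl
      have h2 := hadj false
      generalize π (.inr (.inl false)) = s at h1 h2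
      rcases s with b | a
      exacts [absurd h2 (ll _ _), absurd h1 (rr _ _)]
    · have : ∀ t, π (.inr (.inl t)) = .inl none := by
        intro t
        have h1 := fun a' => (dom t (.inr a')).resolve_right (rr _ _)
        generalize π (.inr (.inl t)) = s at h1
        rcases s with (_ | P) | a'
        · rfl
        · obtain ⟨l, hl⟩ := hP P
          exact absurd (h1 (.inr l)) hl
        · exact absurd (h1 a') (rr _ _)
      exact absurd ((this _).trans (this _).symm) hne
  have hb : ∀ t, ∃ t', π (.inr (.inl t)) = .inr (.inl t') := by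
    intro t
    have h1 := fun b => (dom t (.inl b)).resolve_right (by rw [hn]; exact ll _ _)
    generalize π (.inr (.inl t)) = s at h1
    rcases s with b | (t' | l)
    · exact absurd (h1 b) (ll _ _)
    · exact ⟨t', rfl⟩
    · obtain ⟨P, hP⟩ := hL l
      exact absurd (h1 (some P)) hP
  choose β hβ using hb
  have hβi : Function.Injective β := fun a b e =>
    Sum.inl_injective (Sum.inr_injective (hπ (by rw [hβ, hβ, e])))
  have hρ : ∀ P, ∃ Q, π (.inl (some P)) = .inl (some Q) := by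
    intro P
    have h1 : adj inc (π (.inl (some P))) (π (.inr (.inl false))) := (h _ _).2 trivial
    have h2 : π (.inl (some P)) ≠ .inl none := fun e => by simpa using hπ (e.trans hn.symm)
    rw [hβ] at h1
    generalize π (.inl (some P)) = s at h1 h2
    rcases s with (_ | Q) | a
    exacts [absurd rfl h2, ⟨Q, rfl⟩, absurd h1 (rr _ _)]
  have hτ : ∀ l, ∃ m, π (.inr (.inr l)) = .inr (.inr m) := by
    intro l
    have h1 : adj inc (π (.inr (.inr l))) (π (.inl none)) := (h _ _).2 trivial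
    have h2 : ∀ t, π (.inr (.inr l)) ≠ .inr (.inl t) := fun t e => by
      obtain ⟨t, rfl⟩ := Finite.surjective_of_injective hβi t
      simpa using hπ (e.trans (hβ t).symm)
    rw [hn] at h1
    generalize π (.inr (.inr l)) = s at h1 h2
    rcases s with b | (t | m)
    exacts [absurd h1 (ll _ _), absurd rfl (h2 t), ⟨m, rfl⟩]
  choose ρ hρ using hρ
  choose τ hτ using hτ
  refine ⟨β false, ρ, τ, hβ _, hρ, fun a b e => ?_, fun a b e => ?_, fun P l => ?_⟩
  · exact Option.some_injective _ (Sum.inl_injective (hπ (by rw [hρ, hρ, e])))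
  · exact Sum.inr_injective (Sum.inr_injective (hπ (by rw [hτ, hτ, e])))
  · have := h (.inl (some P)) (.inr (.inr l))
    rwa [hρ, hτ] at this

end

section

variable {V K : Type} [CommRing V] [IsDomain V] [ValuationRing V] [Field K] [Algebra V K]
  [IsFractionRing V K]

theorem cnd_red {T U0 U1 U2 U3 : Submodule K (A K)} {c : V}
    (h : Cnd T U0 U1 U2 U3 (algebraMap V K c)) (h0 : redS (V := V) U0 ⊓ redS (V := V) U2 = ⊥)
    (h1 : redS (V := V) U1 ⊓ redS (V := V) U2 = ⊥) :
    Cnd (redS (V := V) T) (redS U0) (redS U1) (redS U2) (redS U3) (residue V c) := by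
  obtain ⟨w0, w1, n0, n1, t0, t1, m0, m1, m2, m3⟩ := h
  have prim : ∀ w : A K, w ≠ 0 → ∃ (a : K) (f : A V), a ≠ 0 ∧ up V K f = a • w ∧ dn V f ≠ 0 := by
    intro w hw
    obtain ⟨a, f, m, hf, hm⟩ := exists_primitive (V := V) hw
    refine ⟨a, f, fun e => ?_, hf, fun e => ?_⟩
    · have := congrArg (coeff m) hf
      rw [coeff_map, hm, e] at this
      simp at this
    · have := congrArg (coeff m) e
      rw [coeff_map, hm] at this
      simp at this
  have hup : ∀ (r : V) (f : A V), up V K (r • f) = algebraMap V K r • up V K f := fun r f => by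
    rw [smul_eq_C_mul, smul_eq_C_mul, map_mul, map_C]
  have hdn : ∀ (r : V) (f : A V), dn V (r • f) = residue V r • dn V f := fun r f => by
    simp [smul_eq_C_mul]
  obtain ⟨a, f0, f1, e0, e1, hne⟩ : ∃ (a : K) (f0 f1 : A V), up V K f0 = a • w0 ∧
      up V K f1 = a • w1 ∧ (dn V f0 ≠ 0 ∨ dn V f1 ≠ 0) := by
    obtain ⟨a0, f0, p0, e0, q0⟩ := prim w0 n0
    obtain ⟨a1, f1, p1, e1, q1⟩ := prim w1 n1
    rcases ValuationRing.isInteger_or_isInteger V (a0 / a1) with ⟨r, hr⟩ | ⟨r, hr⟩
    · refine ⟨a0, f0, r • f1, e0, ?_, Or.inl q0⟩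
      rw [hup, e1, hr, smul_smul, div_mul_cancel₀ _ p1]
    · refine ⟨a1, r • f0, f1, ?_, e1, Or.inr q1⟩
      rw [hup, e0, hr, smul_smul, inv_div, div_mul_cancel₀ _ p0]
  have hm : ∀ (W : Submodule K (A K)) (f : A V) (w : A K), up V K f = a • w → w ∈ W →
      dn V f ∈ redS (V := V) W := fun W f w e hw => ⟨f, e ▸ W.smul_mem a hw, rfl⟩
  have r0 := hm _ _ _ e0 m0
  have r1 := hm _ _ _ e1 m1
  have r2 := hm _ (f0 + f1) _ (by rw [map_add, e0, e1, smul_add]) m2
  have r3 := hm _ (f0 + c • f1) _ (by rw [map_add, hup, e0, e1, smul_add, smul_comm]) m3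
  rw [map_add] at r2 r3
  rw [hdn] at r3
  refine ⟨dn V f0, dn V f1, fun e => ?_, fun e => ?_, hm _ _ _ e0 t0, hm _ _ _ e1 t1, r0, r1, r2, r3⟩
  · rw [e, zero_add] at r2
    have : dn V f1 ∈ redS (V := V) U1 ⊓ redS (V := V) U2 := ⟨r1, r2⟩
    rw [h1] at this
    exact hne.elim (fun h => h e) fun h => h this
  · rw [e, add_zero] at r2
    have : dn V f0 ∈ redS (V := V) U0 ⊓ redS (V := V) U2 := ⟨r0, r2⟩
    rw [h0] at this
    exact hne.elim (fun h => h this) fun h => h e

variable [IsAlgClosed K] {Pt Ln : Type} [Fintype (Jx Pt Ln)] [DecidableEq (Jx Pt Ln)]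
  {inc : Pt → Ln → Prop} {G : Aff (ResidueField V) inc} {e N : ℕ} {It : Ideal (A K)}

theorem lift_pat (hG : G.Good) (S : Setup V K (cfg G e) It N) {p : Jx Pt Ln → Ideal (A K)}
    (hp : ∀ i, p i ∈ It.minimalPrimes) (hpi : ∀ i, red V K (p i) ≤ (cfg G e i).P) :
    Pattern inc (fun i => pc (p i) 1) ∧ (∀ i, finrank K (pc (p i) 1) = 2) ∧
      ∀ {t a b c d} {r : V}, a ≠ c → b ≠ c → Cnd (pc (p (.inr (.inl t))) 1)
        (pc (p (.inl (some a))) 1) (pc (p (.inl (some b))) 1) (pc (p (.inl (some c))) 1)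
        (pc (p (.inl (some d))) 1) (algebraMap V K r) →
        cr ((if t then G.X else G.Y) a) ((if t then G.X else G.Y) b)
          ((if t then G.X else G.Y) c) ((if t then G.X else G.Y) d) (residue V r) := by
  have hr : ∀ i, redS (V := V) (pc (p i) 1) = pc (cfg G e i).P 1 := fun i => by
    rw [← pc_red (minimal_hom S.hom (hp i)), (S.is_line (hp i) (hpi i)).2]
  refine ⟨(cfg_pattern hG e).transfer fun i j hij => ⟨fun h => ?_, fun h => ?_⟩, fun i => ?_,
    fun {t a b c d r} h1 h2 h => ?_⟩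
  · by_contra hne
    exact S.incidence (hp i) (hp j) hij (hpi i) (hpi j) hne h
  · apply pc_inf_eq_bot_of_red (V := V)
    rwa [(S.is_line (hp i) (hpi i)).2, (S.is_line (hp j) (hpi j)).2]
  · rw [← finrank_redS (V := V) (pc_le _ _), hr, MLine.finrank_one]
  · have := cnd_red h (by rw [hr, hr]; exact (cfg_pattern hG e).bb _ _ (by simpa using h1))
      (by rw [hr, hr]; exact (cfg_pattern hG e).bb _ _ (by simpa using h2))
    simp only [hr] at this
    exact cr_of_cnd (cfg_pattern hG e) (fun i => MLine.finrank_one _) (lnk_cfg G e t) this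

end

theorem min_same {K : Type} [Field K] {I J p : Ideal (A K)} (hI : IsHomog I) (hJ : IsHomog J)
    (h : SameSub I J) (hp : p ∈ I.minimalPrimes) (hi : ¬ irr K ≤ p) : p ∈ J.minimalPrimes := by
  have key : ∀ {I J q : Ideal (A K)}, IsHomog I → IsHomog J → SameSub I J → q.IsPrime → I ≤ q →
      ¬ irr K ≤ q → J ≤ q := by
    intro I J q hI hJ h hq hle hi
    obtain ⟨i, hi⟩ := not_forall.1 (mt irr_le_iff.2 hi)
    refine hJ.le_of_homog fun n f hf hn => ?_
    obtain ⟨M, hM⟩ := exists_X_pow_mul_mem hI hn (i := i) (by rw [h i]; exact le_chart J i hf)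
    exact (hq.mem_or_mem (hle hM)).resolve_left fun h => hi (hq.mem_of_pow_mem _ h)
  refine ⟨⟨hp.isPrime, key hI hJ h hp.isPrime hp.le hi⟩, fun q hq hle => hp.2 ⟨hq.1, ?_⟩ hle⟩
  exact key hJ hI (fun i => (h i).symm) hq.1 hq.2 fun e => hi (e.trans hle)

end Pool.Agent.MP_f49c72_ag.Cur
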